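import Pool.Agent.Work.MP_71c2fc_gt.Dim

set_option autoImplicit false

open Set Topology
open scoped unitInterval

universe u v

namespace Pool.Agent.Results.MP_71c2fc_gt.FibredTorsionFree

/-- `B` has covers of arbitrarily small mesh by open sets of order at most two (for compact `B`:
the covering dimension of `B` is at most one). -/
def DimLeOne {M : Type v} [MetricSpace M] (B : Set M) : Prop :=
  ∀ ε : ℝ, 0 < ε → ∃ (ι : Type) (U : ι → Set M), (∀ k, IsOpen (U k)) ∧ (∀ z ∈ B, ∃ k, z ∈ U k) ∧
    (∀ z ∈ B, ∀ k l m, z ∈ U k → z ∈ U l → z ∈ U m → k = l ∨ k = m ∨ l = m) ∧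
    (∀ k, ∀ a ∈ B, ∀ b ∈ B, a ∈ U k → b ∈ U k → dist a b ≤ ε)

/-- The union of the convex hulls of the sets `j '' C`, where `C` runs over the connected subsets
of `K` on which `h` is constant. -/
def Hulls {T : Type} [TopologicalSpace T] {E : Type u} [NormedAddCommGroup E] [NormedSpace ℝ E]
    {M : Type v} (j : T → E) (h : T → M) (K : Set T) : Set E :=
  {e | ∃ C ⊆ K, IsPreconnected C ∧ (∀ a ∈ C, ∀ b ∈ C, h a = h b) ∧ e ∈ convexHull ℝ (j '' C)}

/-- `K` is fibred in `T`: there are a continuous map `h` of `K` to a metric space whose image has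
dimension at most one, a continuous map `j` of `K` to a normed space and a map `ρ` back to `T`
which is continuous on the union of the convex hulls of the sets `j '' C` (`C` a connected subset
of `K` on which `h` is constant) and satisfies `ρ (j a) = a` on `K`. -/
def Fibred {T : Type} [TopologicalSpace T] (K : Set T) : Prop :=
  ∃ (E : Type u) (_ : NormedAddCommGroup E) (_ : NormedSpace ℝ E) (j : T → E) (ρ : E → T)
    (M : Type v) (_ : MetricSpace M) (h : T → M),
    ContinuousOn j K ∧ ContinuousOn h K ∧ DimLeOne (h '' K) ∧ (∀ a ∈ K, ρ (j a) = a) ∧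
      ContinuousOn ρ (Hulls j h K)

/-- `K` is thin-fibred in `T`: there are a topological embedding `j` of `T` in a normed space and
a continuous map `h` of `K` to the plane whose image has empty interior such that the convex hull
of `j '' C` lies in the image of `j` for every connected subset `C` of `K` on which `h` is
constant. -/
def ThinFibred {T : Type} [TopologicalSpace T] (K : Set T) : Prop :=
  ∃ (E : Type u) (_ : NormedAddCommGroup E) (_ : NormedSpace ℝ E) (j : T → E) (h : T → ℝ × ℝ),
    IsEmbedding j ∧ ContinuousOn h K ∧ interior (h '' K) = ∅ ∧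
      ∀ C ⊆ K, IsPreconnected C → (∀ a ∈ C, ∀ b ∈ C, h a = h b) →
        convexHull ℝ (j '' C) ⊆ range j

/-- Let `X` be a subset of 3-space such that every compact subset `K` of `X` can be deformed in
`X` (by a homotopy `D` of the inclusion of `K`) onto a set which is fibred or thin-fibred in `X`.
Then the fundamental group of `X` is torsion-free at every base point. -/
theorem result (X : Set (EuclideanSpace ℝ (Fin 3)))
    (hX : ∀ K : Set X, IsCompact K → ∃ D : X × I → X, ContinuousOn D (K ×ˢ univ) ∧
      (∀ a ∈ K, D (a, 0) = a) ∧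
      (Fibred.{u, v} ((fun a => D (a, 1)) '' K) ∨ ThinFibred.{u} ((fun a => D (a, 1)) '' K)))
    (x : X) (g : FundamentalGroup X x) (hg : IsOfFinOrder g) : g = 1 := by
  refine Work.MP_71c2fc_gt.torsionFree_combined.{u, v, 0} ?_ x g hg
  intro K hK
  obtain ⟨D, hD, hD0, hc⟩ := hX K hK
  refine ⟨D, hD, hD0, ?_⟩
  rcases hc with hc | hc
  · left
    obtain ⟨E, i1, i2, j, ρ, M, i3, h, h1, h2, h3, h4, h5⟩ := hc
    exact ⟨E, i1, i2, j, ρ, M, i3, h, h1, h2, Work.MP_71c2fc_gt.thinCover_of_dimLeOne h3, h4, h5⟩
  · right; left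
    exact hc

end Pool.Agent.Results.MP_71c2fc_gt.FibredTorsionFree
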