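import Pool.Agent.Work.MP_71c2fc_gt.Dim

set_option autoImplicit false

open Set Topology
open scoped unitInterval

namespace Pool.Agent.Results.MP_71c2fc_gt.PuncturedComplexes

/-- The union of the faces of dimension at most two of the standard simplex with `n` vertices, in
barycentric coordinates.  Every finite simplicial complex of dimension at most two is a subcomplex
of one of these. -/
def TwoSkeleton (n : ℕ) : Set (Fin n → ℝ) :=
  {g | (∀ v, 0 ≤ g v) ∧ ∑ v, g v = 1 ∧ (Finset.univ.filter fun v => g v ≠ 0).card ≤ 3}

/-- `K` can be embedded in a finite two-dimensional simplicial complex such that the image misses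
a point `p` of the interior of every triangle `τ`. -/
def Punctured {T : Type} [TopologicalSpace T] (K : Set T) : Prop :=
  ∃ (n : ℕ) (φ : T → Fin n → ℝ), ContinuousOn φ K ∧ InjOn φ K ∧
    (∀ a ∈ K, φ a ∈ TwoSkeleton n) ∧
    ∀ τ : Finset (Fin n), τ.card = 3 → ∃ p : Fin n → ℝ, (∀ v, 0 ≤ p v) ∧ ∑ v, p v = 1 ∧
      (∀ v, p v ≠ 0 ↔ v ∈ τ) ∧ p ∉ φ '' K

/-- Let `X` be a subset of 3-space such that every compact subset `K` of `X` can be deformed in
`X` (by a homotopy `D` of the inclusion of `K`) onto a set which embeds in a finite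
two-dimensional simplicial complex with an image missing a point of the interior of every
triangle.  Then the fundamental group of `X` is torsion-free at every base point. -/
theorem result (X : Set (EuclideanSpace ℝ (Fin 3)))
    (hX : ∀ K : Set X, IsCompact K → ∃ D : X × I → X, ContinuousOn D (K ×ˢ univ) ∧
      (∀ a ∈ K, D (a, 0) = a) ∧ Punctured ((fun a => D (a, 1)) '' K))
    (x : X) (g : FundamentalGroup X x) (hg : IsOfFinOrder g) : g = 1 := by
  refine Work.MP_71c2fc_gt.torsionFree_combined.{0, 0, 0} ?_ x g hg
  intro K hK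
  obtain ⟨D, hD, hD0, hc⟩ := hX K hK
  exact ⟨D, hD, hD0, Or.inr (Or.inr hc)⟩

end Pool.Agent.Results.MP_71c2fc_gt.PuncturedComplexes
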