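import Pool.Agent.Work.MP_71c2fc_gt.Slice.Walls

set_option autoImplicit false

open Set Topology
open scoped unitInterval

namespace Pool.Agent.Results.MP_71c2fc_gt.SliceableTorsionFree

/-- `t` is a good level of the function `h i` on the space `T`: every continuous map `f` of a
compact connected metrizable space `Z` to `T` which maps a closed connected nonempty subset `F`
into the level set `h i = t` can be replaced by a continuous map `f'` which agrees with `f` on `F`,
has its image within `η` of this level, and satisfies
`inf (h j ∘ f) - η ≤ h j ∘ f' ≤ sup (h j ∘ f) + η` for all `j ≤ m` (for all given `m` and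
`η > 0`). -/
def GoodLevel {T : Type} [TopologicalSpace T] (h : ℕ → T → ℝ) (i : ℕ) (t : ℝ) : Prop :=
  ∀ (Z : Type) [TopologicalSpace Z] [CompactSpace Z] [ConnectedSpace Z]
    [TopologicalSpace.MetrizableSpace Z]
    (F : Set Z) (f : C(Z, T)), IsClosed F → IsConnected F → (∀ z ∈ F, h i (f z) = t) →
    ∀ (m : ℕ) (η : ℝ), 0 < η → ∃ f' : C(Z, T), (∀ z ∈ F, f' z = f z) ∧
      ∀ z, |h i (f' z) - t| ≤ η ∧
        ∀ j ≤ m, ∃ a b : Z, h j (f a) - η ≤ h j (f' z) ∧ h j (f' z) ≤ h j (f b) + η

/-- `T` is sliceable: there is a sequence of continuous real functions `h j` on `T` such that the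
sets on which every `h j` is bounded by a given number are compact, the good levels of every `h i`
are dense, and every nonempty compact connected set on which all `h j` are constant is a point or
has an open neighbourhood all of whose fundamental groups are torsion-free. -/
def Sliceable (T : Type) [TopologicalSpace T] : Prop :=
  ∃ h : ℕ → T → ℝ, (∀ j, Continuous (h j)) ∧
    (∀ M : ℕ → ℝ, IsCompact {x | ∀ j, |h j x| ≤ M j}) ∧
    (∀ i, Dense {t | GoodLevel h i t}) ∧
    ∀ C : Set T, IsCompact C → IsConnected C → (∀ j, ∀ a ∈ C, ∀ b ∈ C, h j a = h j b) →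
      C.Subsingleton ∨ ∃ V : Set T, IsOpen V ∧ C ⊆ V ∧
        ∀ (v : V) (g : FundamentalGroup V v), IsOfFinOrder g → g = 1

/-- `X` has retract walls: for each coordinate `i`, for a dense set of real numbers `t`, every
compact connected subset `C` of the section `x_i = t` of `X` lies, for every `η > 0`, in a subset
`E` of `X` which is an absolute extensor (maps to `E` from closed subsets of normal spaces extend)
and lies in the `η`-neighbourhood (coordinatewise) of the smallest box containing `C`. -/
def RetractWalls (X : Set (EuclideanSpace ℝ (Fin 3))) : Prop :=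
  ∀ i : Fin 3, Dense {t : ℝ | ∀ C ⊆ X, IsCompact C → IsConnected C →
    (∀ a ∈ C, a i = t) → ∀ η : ℝ, 0 < η → ∃ E ⊆ X, C ⊆ E ∧ TietzeExtension.{0, 0} E ∧
      ∀ x ∈ E, ∀ j, ∃ a ∈ C, ∃ b ∈ C, a j - η ≤ x j ∧ x j ≤ b j + η}

/-- (1) Let `X` be a subset of 3-space such that the inclusion of every compact subset `K` in `X`
is homotopic (by `D`) to a map which factors through a sliceable Hausdorff space `T` as
`K → T → X`. Then the fundamental group of `X` is torsion-free at every base point.
(2) Every closed subset of 3-space with retract walls is sliceable (and so has torsion-free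
fundamental groups). -/
theorem result :
    (∀ X : Set (EuclideanSpace ℝ (Fin 3)),
      (∀ K : Set X, IsCompact K → ∃ (T : Type) (_ : TopologicalSpace T) (_ : T2Space T)
        (d : K → T) (u : T → X) (D : X × I → X), Sliceable T ∧ Continuous d ∧ Continuous u ∧
          ContinuousOn D (K ×ˢ univ) ∧ (∀ a : K, D (a, 0) = a) ∧ (∀ a : K, D (a, 1) = u (d a))) →
      ∀ (x : X) (g : FundamentalGroup X x), IsOfFinOrder g → g = 1) ∧
    (∀ X : Set (EuclideanSpace ℝ (Fin 3)), IsClosed X → RetractWalls X →
      Sliceable X ∧ ∀ (x : X) (g : FundamentalGroup X x), IsOfFinOrder g → g = 1) := by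
  refine ⟨fun X hX x g hg => Work.MP_71c2fc_gt.torsionFree_of_sliceable hX x g hg,
    fun X hX hw => ?_⟩
  have h2 : Work.MP_71c2fc_gt.Sliceable X := Work.MP_71c2fc_gt.sliceable_of_walls hX hw
  exact ⟨h2, fun x g hg => Work.MP_71c2fc_gt.torsionFree_of_sliceable h2.deforms x g hg⟩

end Pool.Agent.Results.MP_71c2fc_gt.SliceableTorsionFree
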