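import Pool.Agent.Work.MP_71c2fc_gt.LocMain
import Pool.Agent.Work.MP_71c2fc_gt.Dim

set_option autoImplicit false

open Set Topology
open scoped unitInterval

universe v

namespace Pool.Agent.Results.MP_71c2fc_gt.TorsionLocalization

/-- `B` has covers of arbitrarily small mesh by open sets of order at most two (for compact `B`:
the covering dimension of `B` is at most one). -/
def DimLeOne {M : Type v} [MetricSpace M] (B : Set M) : Prop :=
  ∀ ε : ℝ, 0 < ε → ∃ (ι : Type) (U : ι → Set M), (∀ k, IsOpen (U k)) ∧ (∀ z ∈ B, ∃ k, z ∈ U k) ∧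
    (∀ z ∈ B, ∀ k l m, z ∈ U k → z ∈ U l → z ∈ U m → k = l ∨ k = m ∨ l = m) ∧
    (∀ k, ∀ a ∈ B, ∀ b ∈ B, a ∈ U k → b ∈ U k → dist a b ≤ ε)

/-- The set `O` carries the class `g` of loops at `x`: some loop `δ` in `O`, joined to `x` by a
path `β` of the whole space, gives `g = [β * δ * β⁻¹]`. -/
def Carries {T : Type} [TopologicalSpace T] {x : T} (g : FundamentalGroup T x) (O : Set T) : Prop :=
  ∃ (y : T) (δ : Path y y) (β : Path x y), (∀ t, δ t ∈ O) ∧
    FundamentalGroup.fromPath (Path.Homotopic.Quotient.mk ((β.trans δ).trans β.symm)) = g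

/-- Let `X` be a subset of 3-space and `g` an element of prime power order of `π₁(X, x)`.  For
every continuous map `h` from `X` to a metric space such that the images of compact sets have
dimension at most one (for instance every continuous real function) there is a nonempty compact
connected set `Λ` in a fibre of `h` such that every neighbourhood of `Λ` in `X` carries `g`. -/
theorem result (X : Set (EuclideanSpace ℝ (Fin 3))) {M : Type v} [MetricSpace M] (h : X → M)
    (hh : Continuous h) (hdim : ∀ K : Set X, IsCompact K → DimLeOne (h '' K)) (x : X)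
    (g : FundamentalGroup X x) (p m : ℕ) (hp : p.Prime) (hg : orderOf g = p ^ m) :
    ∃ Λ : Set X, IsCompact Λ ∧ IsConnected Λ ∧ (∀ a ∈ Λ, ∀ b ∈ Λ, h a = h b) ∧
      ∀ O : Set X, IsOpen O → Λ ⊆ O → Carries g O :=
  Work.MP_71c2fc_gt.localization h hh
    (fun K hK => Work.MP_71c2fc_gt.thinCover_of_dimLeOne (hdim K hK)) x g hp hg

end Pool.Agent.Results.MP_71c2fc_gt.TorsionLocalization
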